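import Mathlib
import Pool.Agent.Y918.EL.Main
import Pool.Agent.Y918.GB.Sch

/-!
# Random combinations of arbitrary numbers together with random points on curves with complex
multiplication
-/

set_option autoImplicit false

noncomputable section

namespace Pool.Agent.Q24.ET

open Module Finset
open scoped PeriodPair
open Pool.Agent.Y918.RP (RelW)
open Pool.Agent.Y918.EL (CM Good pt ext le_ext mem_ext ext_finite ext_finrank Qb)
open Pool.Agent.W245.EB (EL EllFam zt NoRelTot)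

/-- The random combination `τ_l + ∑ a_{l,i} x_{l,i}` or its exponential. -/
def wn {s k : ℕ} (c : Fin s → Bool) (τ : Fin s → ℂ) (x : Fin s → Fin k → ℂ)
    (a : Fin s → Fin k → ℤ) (l : Fin s) : ℂ :=
  if c l = true then τ l + ∑ i, (a l i : ℂ) * x l i else
    Complex.exp (τ l + ∑ i, (a l i : ℂ) * x l i)

/-- The conclusion. -/
def Free {s n k : ℕ} (c : Fin s → Bool) (τ : Fin s → ℂ) (x : Fin s → Fin k → ℂ) (d : Fin n → CM)
    (b : Fin n → ℂ) (u : Fin n → Fin k → ℂ) (W : Submodule Qb ℂ) (D : ℕ)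
    (z : (Fin s → Fin k → ℤ) × (Fin n → Fin k × Fin 2 → ℤ)) : Prop :=
  (∀ j, pt d b u z.2 j ∉ (d j).L.lattice ∧ pt d b u z.2 j ∈ EL (d j).L) ∧
    NoRelTot W D (Sum.elim (wn c τ x z.1)
      (Sum.elim (pt d b u z.2) (fun j => zt (d j).L (pt d b u z.2 j))))

open Classical in
theorem toric (s D N : ℕ) : ∃ (k₀ C : ℕ) (δ : ℝ), 0 < δ ∧ ∀ k ≥ k₀, ∀ x : Fin s → Fin k → ℂ,
    (∀ l, LinearIndependent ℚ (x l)) → ∃ c : Fin s → Bool, ∀ A : Finset ℤ, A.Nonempty →
    ∀ W : Submodule Qb ℂ, Module.Finite Qb W → finrank Qb W ≤ N → ∀ τ : Fin s → ℂ,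
    (((Fintype.piFinset fun _ : Fin s => Fintype.piFinset fun _ : Fin k => A).filter
      (fun a => ¬ NoRelTot W D (wn c τ x a))).card : ℝ) ≤
      C * (A.card : ℝ) ^ ((s * k : ℝ) - δ * k) := by
  obtain ⟨k₀, C, δ, hδ, h⟩ := Pool.Agent.Y918.GB.sch s D N
  refine ⟨k₀, C, δ, hδ, fun k hk x hx => ?_⟩
  obtain ⟨c, hc⟩ := h k hk x hx
  refine ⟨c, fun A hA W hW hWN τ => ?_⟩
  have h1 := hc (A.image (fun z : ℤ => (z : ℚ))) (hA.image _) W hW hWN τ
  rw [Pool.Agent.Y918.EL.card_image_cast] at h1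
  refine le_trans (Nat.cast_le.2 (Pool.Agent.Y918.EL.card_cast A
    (fun a : Fin s → Fin k → ℤ => ¬ NoRelTot W D (wn c τ x a)) _ ?_)) h1
  intro m hm
  by_contra hR
  apply hm
  intro Q hQ1 hQ2 hQ3
  by_contra hQ
  refine hR ⟨Q, hQ, hQ2, fun i => (MvPolynomial.degreeOf_le_totalDegree Q i).trans hQ1, ?_⟩
  rw [← hQ3]
  congr 2
  funext l
  unfold wn
  rcases Bool.eq_false_or_eq_true (c l) with h2 | h2
  · simp only [h2, cond_true, if_true, Rat.cast_intCast]
  · simp only [h2, cond_false, Rat.cast_intCast, Bool.false_eq_true, if_false]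

open Classical in
/-- **Random combinations of arbitrary numbers and random points.** -/
theorem mixed (s n D N : ℕ) : ∃ (k₀ C : ℕ) (δ : ℝ), 0 < δ ∧ ∀ k ≥ k₀,
    ∀ x : Fin s → Fin k → ℂ, (∀ l, LinearIndependent ℚ (x l)) → ∃ c : Fin s → Bool,
    ∀ (d : Fin n → CM) (u : Fin n → Fin k → ℂ), (∀ j, EllFam (d j).L (u j)) →
    ∀ A : Finset ℤ, A.Nonempty →
    ∀ W : Submodule Qb ℂ, Module.Finite Qb W → finrank Qb W ≤ N →
    ∀ (τ : Fin s → ℂ) (b : Fin n → ℂ), (∀ j, b j ∈ EL (d j).L) →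
    ((((Fintype.piFinset fun _ : Fin s => Fintype.piFinset fun _ : Fin k => A) ×ˢ
        (Fintype.piFinset fun _ : Fin n => Fintype.piFinset fun _ : Fin k × Fin 2 => A)).filter
      (fun z => ¬ Free c τ x d b u W D z)).card : ℝ) ≤
      C * (A.card : ℝ) ^ (((s + 2 * n) * k : ℝ) - δ * k) := by
  obtain ⟨k₁, C₁, δ₁, hδ₁, h₁⟩ := toric s D N
  obtain ⟨k₂, C₂, δ₂, hδ₂, h₂⟩ :=
    Pool.Agent.Y918.EL.cmpoints n D ((N + Fintype.card (Option (Fin s))) ^ (1 + D))
  refine ⟨max k₁ k₂, C₁ + C₂, min δ₁ δ₂, lt_min hδ₁ hδ₂, fun k hk x hx => ?_⟩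
  obtain ⟨c, hc⟩ := h₁ k (le_trans (le_max_left _ _) hk) x hx
  refine ⟨c, fun d u hu A hA W hW hWN τ b hb => ?_⟩
  have hA1 : (1 : ℝ) ≤ A.card := by exact_mod_cast hA.card_pos
  have hA0 : (0 : ℝ) < A.card := lt_of_lt_of_le one_pos hA1
  -- the two sets of exceptions
  set X := Fintype.piFinset fun _ : Fin s => Fintype.piFinset fun _ : Fin k => A with hX
  set Y := Fintype.piFinset fun _ : Fin n => Fintype.piFinset fun _ : Fin k × Fin 2 => A with hY
  have hXc : (X.card : ℝ) = (A.card : ℝ) ^ ((s * k : ℝ)) := by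
    rw [hX, Fintype.card_piFinset, Finset.prod_const, Fintype.card_piFinset, Finset.prod_const,
      Finset.card_univ, Finset.card_univ, Fintype.card_fin, Fintype.card_fin, ← pow_mul]
    push_cast
    rw [← Real.rpow_natCast]
    congr 1
    push_cast
    ring
  have hYc : (Y.card : ℝ) = (A.card : ℝ) ^ ((2 * n * k : ℝ)) := by
    rw [hY, Fintype.card_piFinset, Finset.prod_const, Fintype.card_piFinset, Finset.prod_const,
      Finset.card_univ, Finset.card_univ, Fintype.card_prod, Fintype.card_fin, Fintype.card_fin,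
      Fintype.card_fin, ← pow_mul]
    push_cast
    rw [← Real.rpow_natCast]
    congr 1
    push_cast
    ring
  -- the second set of exceptions
  let V : (Fin s → Fin k → ℤ) → Submodule Qb ℂ := fun a =>
    ext W (fun o : Option (Fin s) => o.elim 1 (wn c τ x a))
  have hVf : ∀ a, Module.Finite Qb (V a) := fun a => ext_finite W _
  have hVr : ∀ a, finrank Qb (V a) ≤ N + Fintype.card (Option (Fin s)) := fun a =>
    (ext_finrank W _).trans (Nat.add_le_add_right hWN _)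
  have hb2 : ∀ a, ((Y.filter (fun m => ¬ Good d b u (V a ^ (1 + D)) D m)).card : ℝ) ≤
      C₂ * (A.card : ℝ) ^ ((2 * n * k : ℝ) - δ₂ * k) := by
    intro a
    obtain ⟨hf, hr⟩ := Pool.Agent.W245.finrank_pow_le (V a) _ (hVr a) (1 + D)
    exact h₂ k (le_trans (le_max_right _ _) hk) d u hu b hb A hA _ hf hr
  have hsub : ((X ×ˢ Y).filter (fun z => ¬ Free c τ x d b u W D z)) ⊆
      ((X.filter (fun a => ¬ NoRelTot W D (wn c τ x a))) ×ˢ Y) ∪
        X.biUnion (fun a => (Y.filter (fun m => ¬ Good d b u (V a ^ (1 + D)) D m)).image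
          (fun m => (a, m))) := by
    intro z hz
    obtain ⟨hz1, hz2⟩ := Finset.mem_filter.1 hz
    obtain ⟨hzX, hzY⟩ := Finset.mem_product.1 hz1
    by_cases h3 : NoRelTot W D (wn c τ x z.1)
    · by_cases h4 : Good d b u (V z.1 ^ (1 + D)) D z.2
      · exfalso
        apply hz2
        refine ⟨h4.1, ?_⟩
        refine Pool.Agent.W245.EB.NoRelTot.append (A := V z.1) (a := 1) (mem_ext W _ none) ?_ ?_
          h3 h4.2
        · rw [pow_one]
          exact le_ext W _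
        · intro i
          exact mem_ext W (fun o : Option (Fin s) => o.elim 1 (wn c τ x z.1)) (some i)
      · apply Finset.mem_union_right
        rw [Finset.mem_biUnion]
        exact ⟨z.1, hzX, Finset.mem_image.2 ⟨z.2, Finset.mem_filter.2 ⟨hzY, h4⟩, rfl⟩⟩
    · apply Finset.mem_union_left
      rw [Finset.mem_product]
      exact ⟨Finset.mem_filter.2 ⟨hzX, h3⟩, hzY⟩
  have hcard : (((X ×ˢ Y).filter (fun z => ¬ Free c τ x d b u W D z)).card : ℝ) ≤
      ((X.filter (fun a => ¬ NoRelTot W D (wn c τ x a))).card : ℝ) * Y.card +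
        ∑ a ∈ X, ((Y.filter (fun m => ¬ Good d b u (V a ^ (1 + D)) D m)).card : ℝ) := by
    have h5 := Finset.card_le_card hsub
    have h6 := h5.trans (Finset.card_union_le _ _)
    have h7 : (X.biUnion (fun a => (Y.filter (fun m => ¬ Good d b u (V a ^ (1 + D)) D m)).image
          (fun m => (a, m)))).card ≤ ∑ a ∈ X, (Y.filter (fun m => ¬ Good d b u (V a ^ (1 + D)) D m)).card :=
      Finset.card_biUnion_le.trans (Finset.sum_le_sum fun a _ => Finset.card_image_le)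
    rw [Finset.card_product] at h6
    have h8 := h6.trans (Nat.add_le_add_left h7 _)
    exact_mod_cast h8
  have hpow : ∀ p q : ℝ, p ≤ q → (A.card : ℝ) ^ p ≤ (A.card : ℝ) ^ q := fun p q hpq =>
    Real.rpow_le_rpow_of_exponent_le hA1 hpq
  have hk0 : (0 : ℝ) ≤ k := Nat.cast_nonneg _
  refine hcard.trans ?_
  have h9 : ((X.filter (fun a => ¬ NoRelTot W D (wn c τ x a))).card : ℝ) * Y.card ≤
      C₁ * (A.card : ℝ) ^ (((s + 2 * n) * k : ℝ) - min δ₁ δ₂ * k) := by
    rw [hYc]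
    calc ((X.filter (fun a => ¬ NoRelTot W D (wn c τ x a))).card : ℝ) * (A.card : ℝ) ^ ((2 * n * k : ℝ))
        ≤ (C₁ * (A.card : ℝ) ^ ((s * k : ℝ) - δ₁ * k)) * (A.card : ℝ) ^ ((2 * n * k : ℝ)) :=
          mul_le_mul_of_nonneg_right (hc A hA W hW hWN τ) (by positivity)
      _ = C₁ * (A.card : ℝ) ^ (((s * k : ℝ) - δ₁ * k) + (2 * n * k : ℝ)) := by
          rw [Real.rpow_add hA0]; ring
      _ ≤ C₁ * (A.card : ℝ) ^ (((s + 2 * n) * k : ℝ) - min δ₁ δ₂ * k) := by
          refine mul_le_mul_of_nonneg_left (hpow _ _ ?_) (Nat.cast_nonneg _)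
          have := mul_le_mul_of_nonneg_right (min_le_left δ₁ δ₂) hk0
          nlinarith
  have h10 : ∑ a ∈ X, ((Y.filter (fun m => ¬ Good d b u (V a ^ (1 + D)) D m)).card : ℝ) ≤
      C₂ * (A.card : ℝ) ^ (((s + 2 * n) * k : ℝ) - min δ₁ δ₂ * k) := by
    calc ∑ a ∈ X, ((Y.filter (fun m => ¬ Good d b u (V a ^ (1 + D)) D m)).card : ℝ)
        ≤ ∑ _a ∈ X, C₂ * (A.card : ℝ) ^ ((2 * n * k : ℝ) - δ₂ * k) :=
          Finset.sum_le_sum fun a _ => hb2 a
      _ = C₂ * (A.card : ℝ) ^ (((s * k : ℝ)) + ((2 * n * k : ℝ) - δ₂ * k)) := by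
          rw [Finset.sum_const, nsmul_eq_mul, hXc, Real.rpow_add hA0]; ring
      _ ≤ C₂ * (A.card : ℝ) ^ (((s + 2 * n) * k : ℝ) - min δ₁ δ₂ * k) := by
          refine mul_le_mul_of_nonneg_left (hpow _ _ ?_) (Nat.cast_nonneg _)
          have := mul_le_mul_of_nonneg_right (min_le_right δ₁ δ₂) hk0
          nlinarith
  calc _ ≤ C₁ * (A.card : ℝ) ^ (((s + 2 * n) * k : ℝ) - min δ₁ δ₂ * k) +
        C₂ * (A.card : ℝ) ^ (((s + 2 * n) * k : ℝ) - min δ₁ δ₂ * k) := add_le_add h9 h10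
    _ = _ := by push_cast; ring

end Pool.Agent.Q24.ET
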