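import Mathlib
import Pool.Agent.Q24.ET.Mixed

/-!
# Random combinations of arbitrary numbers together with random combinations of numbers which are
linearly independent over the algebraic numbers
-/

set_option autoImplicit false

noncomputable section

namespace Pool.Agent.Q24.ET

open Module Finset
open Pool.Agent.Y918.RP (RelW fine_li tuplesF)
open Pool.Agent.Y918.EL (ext le_ext mem_ext ext_finite ext_finrank Qb)
open Pool.Agent.W245.EB (NoRelTot)

/-- The random combinations `b_j + ∑ m_{j,i} v_{j,i}`. -/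
def ln {n k : ℕ} (b : Fin n → ℂ) (v : Fin n → Fin k → ℂ) (m : Fin n → Fin k → ℤ) (j : Fin n) : ℂ :=
  b j + ∑ i, (m j i : ℂ) * v j i

open Classical in
theorem linear (n D N : ℕ) : ∃ (k₀ C : ℕ) (δ : ℝ), 0 < δ ∧ ∀ k ≥ k₀, ∀ v : Fin n → Fin k → ℂ,
    (∀ j, LinearIndependent Qb (v j)) → ∀ A : Finset ℤ, A.Nonempty →
    ∀ W : Submodule Qb ℂ, Module.Finite Qb W → finrank Qb W ≤ N → ∀ b : Fin n → ℂ,
    (((Fintype.piFinset fun _ : Fin n => Fintype.piFinset fun _ : Fin k => A).filter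
      (fun m => ¬ NoRelTot W D (ln b v m))).card : ℝ) ≤
      C * (A.card : ℝ) ^ ((n * k : ℝ) - δ * k) := by
  obtain ⟨k₀, C, δ, hδ, _, h⟩ := tuplesF D n N
  refine ⟨k₀, C, δ, hδ, fun k hk v hv A hA W hW hWN b => ?_⟩
  have h1 := h k hk (A.image (fun z : ℤ => (z : ℚ))) (hA.image _) W hW hWN
    (fun j (p : Fin k → ℚ) => b j + ∑ i : Fin k, (p i : ℂ) * v j i) (fun j => fine_li (hv j) (b j))
  rw [Pool.Agent.Y918.EL.card_image_cast] at h1
  refine le_trans (Nat.cast_le.2 (Pool.Agent.Y918.EL.card_cast A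
    (fun m : Fin n → Fin k → ℤ => ¬ NoRelTot W D (ln b v m)) _ ?_)) h1
  intro m hm
  by_contra hR
  apply hm
  intro Q hQ1 hQ2 hQ3
  by_contra hQ
  refine hR ⟨Q, hQ, hQ2, fun i => (MvPolynomial.degreeOf_le_totalDegree Q i).trans hQ1, ?_⟩
  rw [← hQ3]
  congr 2

open Classical in
/-- **Random combinations of arbitrary numbers and of independent numbers.** -/
theorem mixed2 (s n D N : ℕ) : ∃ (k₀ C : ℕ) (δ : ℝ), 0 < δ ∧ ∀ k ≥ k₀,
    ∀ x : Fin s → Fin k → ℂ, (∀ l, LinearIndependent ℚ (x l)) → ∃ c : Fin s → Bool,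
    ∀ v : Fin n → Fin k → ℂ, (∀ j, LinearIndependent Qb (v j)) →
    ∀ A : Finset ℤ, A.Nonempty →
    ∀ W : Submodule Qb ℂ, Module.Finite Qb W → finrank Qb W ≤ N →
    ∀ (τ : Fin s → ℂ) (b : Fin n → ℂ),
    ((((Fintype.piFinset fun _ : Fin s => Fintype.piFinset fun _ : Fin k => A) ×ˢ
        (Fintype.piFinset fun _ : Fin n => Fintype.piFinset fun _ : Fin k => A)).filter
      (fun z => ¬ NoRelTot W D (Sum.elim (wn c τ x z.1) (ln b v z.2)))).card : ℝ) ≤
      C * (A.card : ℝ) ^ (((s + n) * k : ℝ) - δ * k) := by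
  obtain ⟨k₁, C₁, δ₁, hδ₁, h₁⟩ := toric s D N
  obtain ⟨k₂, C₂, δ₂, hδ₂, h₂⟩ := linear n D ((N + Fintype.card (Option (Fin s))) ^ (1 + D))
  refine ⟨max k₁ k₂, C₁ + C₂, min δ₁ δ₂, lt_min hδ₁ hδ₂, fun k hk x hx => ?_⟩
  obtain ⟨c, hc⟩ := h₁ k (le_trans (le_max_left _ _) hk) x hx
  refine ⟨c, fun v hv A hA W hW hWN τ b => ?_⟩
  have hA1 : (1 : ℝ) ≤ A.card := by exact_mod_cast hA.card_pos
  have hA0 : (0 : ℝ) < A.card := lt_of_lt_of_le one_pos hA1
  set X := Fintype.piFinset fun _ : Fin s => Fintype.piFinset fun _ : Fin k => A with hX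
  set Y := Fintype.piFinset fun _ : Fin n => Fintype.piFinset fun _ : Fin k => A with hY
  have hXc : (X.card : ℝ) = (A.card : ℝ) ^ ((s * k : ℝ)) := by
    rw [hX, Fintype.card_piFinset, Finset.prod_const, Fintype.card_piFinset, Finset.prod_const,
      Finset.card_univ, Finset.card_univ, Fintype.card_fin, Fintype.card_fin, ← pow_mul]
    push_cast
    rw [← Real.rpow_natCast]
    congr 1
    push_cast
    ring
  have hYc : (Y.card : ℝ) = (A.card : ℝ) ^ ((n * k : ℝ)) := by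
    rw [hY, Fintype.card_piFinset, Finset.prod_const, Fintype.card_piFinset, Finset.prod_const,
      Finset.card_univ, Finset.card_univ, Fintype.card_fin, Fintype.card_fin, ← pow_mul]
    push_cast
    rw [← Real.rpow_natCast]
    congr 1
    push_cast
    ring
  let V : (Fin s → Fin k → ℤ) → Submodule Qb ℂ := fun a =>
    ext W (fun o : Option (Fin s) => o.elim 1 (wn c τ x a))
  have hVf : ∀ a, Module.Finite Qb (V a) := fun a => ext_finite W _
  have hVr : ∀ a, finrank Qb (V a) ≤ N + Fintype.card (Option (Fin s)) := fun a =>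
    (ext_finrank W _).trans (Nat.add_le_add_right hWN _)
  have hb2 : ∀ a, ((Y.filter (fun m => ¬ NoRelTot (V a ^ (1 + D)) D (ln b v m))).card : ℝ) ≤
      C₂ * (A.card : ℝ) ^ ((n * k : ℝ) - δ₂ * k) := by
    intro a
    obtain ⟨hf, hr⟩ := Pool.Agent.W245.finrank_pow_le (V a) _ (hVr a) (1 + D)
    exact h₂ k (le_trans (le_max_right _ _) hk) v hv A hA _ hf hr b
  have hsub : ((X ×ˢ Y).filter (fun z => ¬ NoRelTot W D (Sum.elim (wn c τ x z.1) (ln b v z.2)))) ⊆
      ((X.filter (fun a => ¬ NoRelTot W D (wn c τ x a))) ×ˢ Y) ∪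
        X.biUnion (fun a => (Y.filter (fun m => ¬ NoRelTot (V a ^ (1 + D)) D (ln b v m))).image
          (fun m => (a, m))) := by
    intro z hz
    obtain ⟨hz1, hz2⟩ := Finset.mem_filter.1 hz
    obtain ⟨hzX, hzY⟩ := Finset.mem_product.1 hz1
    by_cases h3 : NoRelTot W D (wn c τ x z.1)
    · by_cases h4 : NoRelTot (V z.1 ^ (1 + D)) D (ln b v z.2)
      · exfalso
        apply hz2
        refine Pool.Agent.W245.EB.NoRelTot.append (A := V z.1) (a := 1) (mem_ext W _ none) ?_ ?_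
          h3 h4
        · rw [pow_one]
          exact le_ext W _
        · intro i
          exact mem_ext W (fun o : Option (Fin s) => o.elim 1 (wn c τ x z.1)) (some i)
      · apply Finset.mem_union_right
        rw [Finset.mem_biUnion]
        exact ⟨z.1, hzX, Finset.mem_image.2 ⟨z.2, Finset.mem_filter.2 ⟨hzY, h4⟩, rfl⟩⟩
    · apply Finset.mem_union_left
      rw [Finset.mem_product]
      exact ⟨Finset.mem_filter.2 ⟨hzX, h3⟩, hzY⟩
  have hcard : (((X ×ˢ Y).filter (fun z => ¬ NoRelTot W D (Sum.elim (wn c τ x z.1)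
      (ln b v z.2)))).card : ℝ) ≤
      ((X.filter (fun a => ¬ NoRelTot W D (wn c τ x a))).card : ℝ) * Y.card +
        ∑ a ∈ X, ((Y.filter (fun m => ¬ NoRelTot (V a ^ (1 + D)) D (ln b v m))).card : ℝ) := by
    have h5 := Finset.card_le_card hsub
    have h6 := h5.trans (Finset.card_union_le _ _)
    have h7 : (X.biUnion (fun a => (Y.filter (fun m => ¬ NoRelTot (V a ^ (1 + D)) D
        (ln b v m))).image (fun m => (a, m)))).card ≤
        ∑ a ∈ X, (Y.filter (fun m => ¬ NoRelTot (V a ^ (1 + D)) D (ln b v m))).card :=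
      Finset.card_biUnion_le.trans (Finset.sum_le_sum fun a _ => Finset.card_image_le)
    rw [Finset.card_product] at h6
    have h8 := h6.trans (Nat.add_le_add_left h7 _)
    exact_mod_cast h8
  have hpow : ∀ p q : ℝ, p ≤ q → (A.card : ℝ) ^ p ≤ (A.card : ℝ) ^ q := fun p q hpq =>
    Real.rpow_le_rpow_of_exponent_le hA1 hpq
  have hk0 : (0 : ℝ) ≤ k := Nat.cast_nonneg _
  refine hcard.trans ?_
  have h9 : ((X.filter (fun a => ¬ NoRelTot W D (wn c τ x a))).card : ℝ) * Y.card ≤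
      C₁ * (A.card : ℝ) ^ (((s + n) * k : ℝ) - min δ₁ δ₂ * k) := by
    rw [hYc]
    calc ((X.filter (fun a => ¬ NoRelTot W D (wn c τ x a))).card : ℝ) * (A.card : ℝ) ^ ((n * k : ℝ))
        ≤ (C₁ * (A.card : ℝ) ^ ((s * k : ℝ) - δ₁ * k)) * (A.card : ℝ) ^ ((n * k : ℝ)) :=
          mul_le_mul_of_nonneg_right (hc A hA W hW hWN τ) (by positivity)
      _ = C₁ * (A.card : ℝ) ^ (((s * k : ℝ) - δ₁ * k) + (n * k : ℝ)) := by
          rw [Real.rpow_add hA0]; ring
      _ ≤ C₁ * (A.card : ℝ) ^ (((s + n) * k : ℝ) - min δ₁ δ₂ * k) := by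
          refine mul_le_mul_of_nonneg_left (hpow _ _ ?_) (Nat.cast_nonneg _)
          have := mul_le_mul_of_nonneg_right (min_le_left δ₁ δ₂) hk0
          nlinarith
  have h10 : ∑ a ∈ X, ((Y.filter (fun m => ¬ NoRelTot (V a ^ (1 + D)) D (ln b v m))).card : ℝ) ≤
      C₂ * (A.card : ℝ) ^ (((s + n) * k : ℝ) - min δ₁ δ₂ * k) := by
    calc ∑ a ∈ X, ((Y.filter (fun m => ¬ NoRelTot (V a ^ (1 + D)) D (ln b v m))).card : ℝ)
        ≤ ∑ _a ∈ X, C₂ * (A.card : ℝ) ^ ((n * k : ℝ) - δ₂ * k) :=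
          Finset.sum_le_sum fun a _ => hb2 a
      _ = C₂ * (A.card : ℝ) ^ (((s * k : ℝ)) + ((n * k : ℝ) - δ₂ * k)) := by
          rw [Finset.sum_const, nsmul_eq_mul, hXc, Real.rpow_add hA0]; ring
      _ ≤ C₂ * (A.card : ℝ) ^ (((s + n) * k : ℝ) - min δ₁ δ₂ * k) := by
          refine mul_le_mul_of_nonneg_left (hpow _ _ ?_) (Nat.cast_nonneg _)
          have := mul_le_mul_of_nonneg_right (min_le_right δ₁ δ₂) hk0
          nlinarith
  calc _ ≤ C₁ * (A.card : ℝ) ^ (((s + n) * k : ℝ) - min δ₁ δ₂ * k) +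
        C₂ * (A.card : ℝ) ^ (((s + n) * k : ℝ) - min δ₁ δ₂ * k) := add_le_add h9 h10
    _ = _ := by push_cast; ring

end Pool.Agent.Q24.ET
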